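import Mathlib

set_option autoImplicit false

/-!
# Bipartite graphs: finitely many forbidden linear orderings, but not circular ones

The class of bipartite graphs is described by two forbidden linearly ordered graphs, but by no
finite set of forbidden circularly ordered graphs.

Idea. Order the vertices of the cycle of length `2 q + 1` on a circle such that every vertex is
adjacent to the two vertices opposite to it. If a vertex is missing, then the remaining ones can be
divided into two arcs which are independent sets. So if `q` is large, every forbidden pattern that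
occurs in this circular ordering is a bipartite graph whose colour classes are arcs. But every such
pattern occurs in every circular ordering of a suitable bipartite graph.
-/

namespace Pool.Agent.Results.MP_b6cdd3_co.BipartiteNotCircular

/-- A finite linearly ordered graph (up to isomorphism its vertex set is `Fin n`). -/
structure LinearlyOrderedGraph where
  /-- the number of vertices -/
  n : ℕ
  /-- the linear order of the vertices -/
  order : LinearOrder (Fin n)
  /-- the graph -/
  graph : SimpleGraph (Fin n)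

/-- A finite circularly ordered graph (up to isomorphism its vertex set is `Fin n`). -/
structure CircularlyOrderedGraph where
  /-- the number of vertices -/
  n : ℕ
  /-- the circular order of the vertices -/
  order : CircularOrder (Fin n)
  /-- the graph -/
  graph : SimpleGraph (Fin n)

/-- `P` is isomorphic to an induced subgraph of `G`, with the restriction of the linear order `r`. -/
def LinearlyOrderedGraph.OccursIn (P : LinearlyOrderedGraph) {V : Type} (r : LinearOrder V)
    (G : SimpleGraph V) : Prop :=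
  ∃ φ : Fin P.n → V, Function.Injective φ ∧
    (∀ i j, P.order.lt i j ↔ r.lt (φ i) (φ j)) ∧ ∀ i j, P.graph.Adj i j ↔ G.Adj (φ i) (φ j)

/-- `P` is isomorphic to an induced subgraph of `G`, with the restriction of the circular order
`c`. -/
def CircularlyOrderedGraph.OccursIn (P : CircularlyOrderedGraph) {V : Type} (c : CircularOrder V)
    (G : SimpleGraph V) : Prop :=
  ∃ φ : Fin P.n → V, Function.Injective φ ∧
    (∀ i j k, P.order.sbtw i j k ↔ c.sbtw (φ i) (φ j) (φ k)) ∧
    ∀ i j, P.graph.Adj i j ↔ G.Adj (φ i) (φ j)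

/-- The graph property `Q` is described by finitely many forbidden linearly ordered graphs. -/
def DescribedLinearly (Q : ∀ V : Type, SimpleGraph V → Prop) : Prop :=
  ∃ F : Set LinearlyOrderedGraph, F.Finite ∧ ∀ (V : Type) [Finite V] (G : SimpleGraph V),
    Q V G ↔ ∃ r : LinearOrder V, ∀ P ∈ F, ¬ P.OccursIn r G

/-- The graph property `Q` is described by finitely many forbidden circularly ordered graphs. -/
def DescribedCircularly (Q : ∀ V : Type, SimpleGraph V → Prop) : Prop :=
  ∃ F : Set CircularlyOrderedGraph, F.Finite ∧ ∀ (V : Type) [Finite V] (G : SimpleGraph V),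
    Q V G ↔ ∃ c : CircularOrder V, ∀ P ∈ F, ¬ P.OccursIn c G

/-- The graph property `Q` is hereditary: closed under isomorphism and taking induced subgraphs. -/
def Hereditary (Q : ∀ V : Type, SimpleGraph V → Prop) : Prop :=
  ∀ (V W : Type) [Finite V] [Finite W] (G : SimpleGraph V) (H : SimpleGraph W),
    Nonempty (H ↪g G) → Q V G → Q W H

/-- The property of being bipartite, i.e. 2-colourable. -/
def Bip : ∀ V : Type, SimpleGraph V → Prop := fun _ G => G.Colorable 2

/-! ### The linear description -/

/-- The two forbidden patterns: a path `0 < 1 < 2`, with or without the edge `02`. -/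
def pat (b : Bool) : LinearlyOrderedGraph where
  n := 3
  order := inferInstance
  graph := SimpleGraph.fromRel (fun i j => (i = 0 ∧ j = 1) ∨ (i = 1 ∧ j = 2) ∨
    (b = true ∧ i = 0 ∧ j = 2))

lemma linear : DescribedLinearly Bip := by
  classical
  refine ⟨Set.range pat, Set.finite_range pat, ?_⟩
  intro V _ G
  constructor
  · rintro ⟨C⟩
    obtain ⟨N, ⟨e⟩⟩ := Finite.exists_equiv_fin V
    let f : V → ℕ := fun v => (C v : ℕ) * N + (e v : ℕ)
    have hf : Function.Injective f := by
      intro x y hxy
      have h1 := (e x).isLt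
      have h2 := (e y).isLt
      have h3 : (e x : ℕ) = (e y : ℕ) := by
        have e1 : f x % N = e x := by
          simp only [f]
          rw [Nat.mul_add_mod', Nat.mod_eq_of_lt h1]
        have e2 : f y % N = e y := by
          simp only [f]
          rw [Nat.mul_add_mod', Nat.mod_eq_of_lt h2]
        rw [← e1, ← e2, hxy]
      exact e.injective (Fin.ext h3)
    have hmono : ∀ x y, f x < f y → (C x : ℕ) ≤ (C y : ℕ) := by
      intro x y hxy
      by_contra h
      push Not at h
      have h1 := (e x).isLt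
      have h2 := (e y).isLt
      have h3 : ((C y : ℕ) + 1) * N ≤ (C x : ℕ) * N := Nat.mul_le_mul_right N h
      simp only [f] at hxy
      rw [add_mul, one_mul] at h3
      omega
    refine ⟨LinearOrder.lift' f hf, ?_⟩
    rintro P ⟨b, rfl⟩ ⟨φ', _, h1', h2'⟩
    let φ : Fin 3 → V := φ'
    have h1 : ∀ i j : Fin 3, i < j ↔ f (φ i) < f (φ j) := h1'
    have h2 : ∀ i j : Fin 3, (SimpleGraph.fromRel (fun i j : Fin 3 => (i = 0 ∧ j = 1) ∨
      (i = 1 ∧ j = 2) ∨ (b = true ∧ i = 0 ∧ j = 2))).Adj i j ↔ G.Adj (φ i) (φ j) := h2'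
    have l1 : f (φ 0) < f (φ 1) := (h1 0 1).mp (by decide)
    have l2 : f (φ 1) < f (φ 2) := (h1 1 2).mp (by decide)
    have a1 : G.Adj (φ 0) (φ 1) := (h2 0 1).mp (by simp)
    have a2 : G.Adj (φ 1) (φ 2) := (h2 1 2).mp (by simp)
    have c1 : (C (φ 0) : ℕ) ≠ C (φ 1) := fun h => C.valid a1 (Fin.ext h)
    have c2 : (C (φ 1) : ℕ) ≠ C (φ 2) := fun h => C.valid a2 (Fin.ext h)
    have m1 := hmono _ _ l1
    have m2 := hmono _ _ l2
    have := (C (φ 2)).isLt
    omega
  · rintro ⟨r, hr⟩
    let _ := r
    have key : ∀ u v w : V, u < v → v < w → G.Adj u v → ¬ G.Adj v w := by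
      intro u v w huv hvw h1 h2
      have huw : u < w := lt_trans huv hvw
      apply hr (pat (decide (G.Adj u w))) ⟨_, rfl⟩
      let φ : Fin 3 → V := ![u, v, w]
      have hφ : StrictMono φ := by
        rw [Fin.strictMono_iff_lt_succ]
        intro i
        fin_cases i
        · exact huv
        · exact hvw
      have hadj : ∀ i j : Fin 3, (SimpleGraph.fromRel (fun i j : Fin 3 => (i = 0 ∧ j = 1) ∨
          (i = 1 ∧ j = 2) ∨ (decide (G.Adj u w) = true ∧ i = 0 ∧ j = 2))).Adj i j ↔
            G.Adj (φ i) (φ j) := by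
        intro i j
        rw [SimpleGraph.fromRel_adj]
        match i, j with
        | 0, 0 => simp [φ]
        | 0, 1 => simp [φ, h1]
        | 0, 2 => simp [φ]
        | 1, 0 => simp [φ, h1.symm]
        | 1, 1 => simp [φ]
        | 1, 2 => simp [φ, h2]
        | 2, 0 => simp [φ, G.adj_comm w u]
        | 2, 1 => simp [φ, h2.symm]
        | 2, 2 => simp [φ]
      exact ⟨φ, hφ.injective, fun i j => (hφ.lt_iff_lt).symm, hadj⟩
    let C : V → Fin 2 := fun v => if ∃ u, u < v ∧ G.Adj u v then 1 else 0
    refine ⟨SimpleGraph.Coloring.mk C ?_⟩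
    have main : ∀ u v : V, u < v → G.Adj u v → C u ≠ C v := by
      intro u v huv hadj
      have h1 : C v = 1 := if_pos ⟨u, huv, hadj⟩
      have h2 : C u = 0 := by
        apply if_neg
        rintro ⟨w, hw, hwu⟩
        exact key w u v hw huv hwu hadj
      rw [h1, h2]
      decide
    intro u v hadj
    rcases lt_trichotomy u v with h | h | h
    · exact main u v h hadj
    · exact absurd h hadj.ne
    · exact (main v u h hadj.symm).symm

/-! ### Circular orders -/

/-- The circular order of three natural numbers. -/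
def cyc (a b c : ℕ) : Prop := (a < b ∧ b < c) ∨ (b < c ∧ c < a) ∨ (c < a ∧ a < b)

/-- Cutting a circular order at a point `b`. -/
lemma exists_position {V : Type} [Finite V] (c : CircularOrder V) (b : V) :
    ∃ h : V → ℕ, (∀ x y, x ≠ b → y ≠ b → x ≠ y → h x ≠ h y) ∧
      ∀ x y z, x ≠ b → y ≠ b → z ≠ b → cyc (h x) (h y) (h z) → c.sbtw x y z := by
  classical
  let _ := c
  have := Fintype.ofFinite V
  let S : V → Finset V := fun x => Finset.univ.filter (fun y => sbtw b y x)
  have htot : ∀ x y : V, x ≠ b → y ≠ b → x ≠ y → sbtw b x y ∨ sbtw b y x := by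
    intro x y hx hy hxy
    by_contra hcon
    push Not at hcon
    obtain ⟨h1, h2⟩ := hcon
    have h3 : btw y x b := btw_iff_not_sbtw.mpr h1
    have h4 : btw x y b := btw_iff_not_sbtw.mpr h2
    have h5 : btw b x y := btw_cyclic_right h4
    rcases h3.antisymm h5 with h | h | h
    · exact hxy h.symm
    · exact hx h
    · exact hy h.symm
  have hlt : ∀ x y : V, sbtw b x y → (S x).card < (S y).card := by
    intro x y hxy
    apply Finset.card_lt_card
    rw [Finset.ssubset_iff_of_subset]
    · refine ⟨x, Finset.mem_filter.mpr ⟨Finset.mem_univ _, hxy⟩, fun h => ?_⟩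
      exact sbtw_irrefl_right (Finset.mem_filter.mp h).2
    · intro z hz
      have hz' := (Finset.mem_filter.mp hz).2
      refine Finset.mem_filter.mpr ⟨Finset.mem_univ _, ?_⟩
      exact sbtw_trans_right hz' hxy
  have hord : ∀ x y : V, x ≠ b → y ≠ b → (S x).card < (S y).card → sbtw b x y := by
    intro x y hx hy h
    have hne : x ≠ y := by rintro rfl; exact lt_irrefl _ h
    rcases htot x y hx hy hne with h' | h'
    · exact h'
    · exact absurd (hlt y x h') (by omega)
  have h3 : ∀ x y z : V, sbtw b x y → sbtw b y z → sbtw x y z := by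
    intro x y z hxy hyz
    -- `sbtw y b x` and `sbtw y z b` give `sbtw y z x`
    have e1 : sbtw y b x := sbtw_cyclic_right hxy
    have e2 : sbtw y z b := sbtw_cyclic_left hyz
    have e3 : sbtw y z x := sbtw_trans_right e2 e1
    exact sbtw_cyclic_right e3
  refine ⟨fun x => (S x).card, ?_, ?_⟩
  · intro x y hx hy hxy
    rcases htot x y hx hy hxy with h | h
    · exact (hlt _ _ h).ne
    · exact (hlt _ _ h).ne'
  · intro x y z hx hy hz h
    rcases h with ⟨h1, h2⟩ | ⟨h1, h2⟩ | ⟨h1, h2⟩
    · exact h3 _ _ _ (hord _ _ hx hy h1) (hord _ _ hy hz h2)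
    · exact sbtw_cyclic_right (h3 _ _ _ (hord _ _ hy hz h1) (hord _ _ hz hx h2))
    · exact sbtw_cyclic_left (h3 _ _ _ (hord _ _ hz hx h1) (hord _ _ hx hy h2))

/-! ### The universal bipartite graph -/

/-- Sorting an injective function. -/
lemma exists_sort {n : ℕ} (f : Fin n → ℕ) (hf : Function.Injective f) :
    ∃ σ : Equiv.Perm (Fin n), StrictMono (f ∘ σ) :=
  ⟨Tuple.sort f, (Tuple.monotone_sort f).strictMono_of_injective
    (hf.comp (Tuple.sort f).injective)⟩

/-- The key combinatorial lemma: in every linear arrangement of `Fin (2 M)` and its subsets there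
are `M` points that lie on one side of subsets which cut out all subsets of these `M` points. -/
lemma shatter {M : ℕ} (hM : 0 < M) (h : Fin (2 * M) ⊕ Finset (Fin (2 * M)) → ℕ)
    (hinj : Function.Injective h) :
    ∃ (d : Fin M → Fin (2 * M)) (β : Finset (Fin M) → Finset (Fin (2 * M))),
      (∀ i j, i < j → h (Sum.inl (d i)) < h (Sum.inl (d j))) ∧
      (∀ Y i, d i ∈ β Y ↔ i ∈ Y) ∧
      ((∀ i Y, h (Sum.inl (d i)) < h (Sum.inr (β Y))) ∨
        (∀ i Y, h (Sum.inr (β Y)) < h (Sum.inl (d i)))) := by
  classical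
  obtain ⟨σ, hσ⟩ := exists_sort (fun i => h (Sum.inl i))
    (fun x y hxy => Sum.inl_injective (hinj hxy))
  let dL : Fin M → Fin (2 * M) := fun i => σ ⟨i, by omega⟩
  let dR : Fin M → Fin (2 * M) := fun i => σ ⟨M + i, by omega⟩
  let t : ℕ := h (Sum.inl (σ ⟨M, by omega⟩))
  have hL : ∀ i, h (Sum.inl (dL i)) < t := fun i => hσ (by
    rw [Fin.lt_def]; exact i.isLt)
  have hR : ∀ i, t ≤ h (Sum.inl (dR i)) := fun i => hσ.monotone (by
    rw [Fin.le_def]; exact Nat.le_add_right _ _)
  have hLR : ∀ i j, dL i ≠ dR j := by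
    intro i j hij
    have := hL i
    rw [hij] at this
    exact absurd this (by have := hR j; omega)
  by_cases hcase : ∀ Y : Finset (Fin M), ∃ X : Finset (Fin (2 * M)),
      (∀ i, dL i ∈ X ↔ i ∈ Y) ∧ t ≤ h (Sum.inr X)
  · choose β hβ using hcase
    refine ⟨dL, β, ?_, fun Y i => (hβ Y).1 i, Or.inl fun i Y => lt_of_lt_of_le (hL i) (hβ Y).2⟩
    intro i j hij
    exact hσ (by rw [Fin.lt_def]; exact hij)
  · push Not at hcase
    obtain ⟨Y0, hY0⟩ := hcase
    have hLi : Function.Injective dL := by
      intro i j hij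
      have := σ.injective hij
      simp only [Fin.mk.injEq] at this
      exact Fin.ext this
    have hRi : Function.Injective dR := by
      intro i j hij
      have := σ.injective hij
      simp only [Fin.mk.injEq] at this
      exact Fin.ext (by omega)
    refine ⟨dR, fun Y => Y0.image dL ∪ Y.image dR, ?_, ?_, Or.inr ?_⟩
    · intro i j hij
      exact hσ (by rw [Fin.lt_def]; exact Nat.add_lt_add_left hij M)
    · intro Y i
      rw [Finset.mem_union, Finset.mem_image, Finset.mem_image]
      constructor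
      · rintro (⟨a, _, ha⟩ | ⟨a, ha, ha'⟩)
        · exact absurd ha (hLR _ _)
        · rwa [← hRi ha']
      · intro hi
        exact Or.inr ⟨i, hi, rfl⟩
    · intro i Y
      refine lt_of_lt_of_le (hY0 _ ?_) (hR i)
      intro j
      rw [Finset.mem_union, Finset.mem_image, Finset.mem_image]
      constructor
      · rintro (⟨a, ha, ha'⟩ | ⟨a, _, ha⟩)
        · rwa [← hLi ha']
        · exact absurd ha.symm (hLR _ _)
      · intro hj
        exact Or.inl ⟨j, hj, rfl⟩

/-- The relation generating the universal bipartite graph. -/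
def urel (N : ℕ) : Option (Fin N ⊕ Finset (Fin N)) → Option (Fin N ⊕ Finset (Fin N)) → Prop
  | some (Sum.inl a), some (Sum.inr X) => a ∈ X
  | some (Sum.inr X), some (Sum.inl a) => a ∈ X
  | _, _ => False

/-- The universal bipartite graph: `Fin N` and its subsets, joined by membership, and an isolated
vertex. -/
def univGraph (N : ℕ) : SimpleGraph (Option (Fin N ⊕ Finset (Fin N))) where
  Adj := urel N
  symm := ⟨by
    intro x y h
    rcases x with _ | x | x <;> rcases y with _ | y | y <;> exact h⟩
  loopless := ⟨by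
    intro x h
    rcases x with _ | x | x <;> exact h⟩

lemma univGraph_colorable (N : ℕ) : (univGraph N).Colorable 2 := by
  refine ⟨SimpleGraph.Coloring.mk (fun x => match x with
    | some (Sum.inl _) => 0
    | _ => 1) ?_⟩
  intro x y h
  rcases x with _ | x | x <;> rcases y with _ | y | y
  · exact absurd h not_false
  · exact absurd h not_false
  · exact absurd h not_false
  · exact absurd h not_false
  · exact absurd h not_false
  · simp
  · exact absurd h not_false
  · simp
  · exact absurd h not_false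

/-- A bipartite pattern on `Fin n` in its natural circular order, whose colour classes are `i < s`
and `i ≥ s`, occurs in every circular ordering of the universal bipartite graph. -/
lemma unavoidable {n : ℕ} (g : SimpleGraph (Fin n)) (s : ℕ)
    (hg : ∀ i j, g.Adj i j → ((i : ℕ) < s ↔ ¬ (j : ℕ) < s)) :
    ∃ N : ℕ, ∀ c : CircularOrder (Option (Fin N ⊕ Finset (Fin N))),
      ∃ ψ : Fin n → Option (Fin N ⊕ Finset (Fin N)),
        (∀ i j k, i < j → j < k → c.sbtw (ψ i) (ψ j) (ψ k)) ∧
        Function.Injective ψ ∧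
        (∀ i j, g.Adj i j ↔ (univGraph N).Adj (ψ i) (ψ j)) := by
  classical
  -- the number of points
  obtain ⟨K, ⟨eK⟩⟩ := Finite.exists_equiv_fin (Equiv.Perm (Fin n))
  by_cases hn : n = 0
  · subst hn
    exact ⟨0, fun c => ⟨fun i => i.elim0, fun i => i.elim0, fun i => i.elim0,
      fun i => i.elim0⟩⟩
  have hK : 0 < K := by
    have := eK 1
    exact this.pos
  set M : ℕ := K * (2 * n) with hMdef
  have hM : 0 < M := by positivity
  refine ⟨2 * M, fun c => ?_⟩
  obtain ⟨p, hp1, hp2⟩ := exists_position c none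
  have hinj : Function.Injective (fun x => p (some x)) := by
    intro x y hxy
    by_contra hne
    exact hp1 (some x) (some y) (by simp) (by simp) (fun h => hne (Option.some_injective _ h)) hxy
  obtain ⟨d, β, hd, hβ, hside⟩ := shatter hM (fun x => p (some x)) hinj
  -- the position of element `i` of block `π`
  let pos : Equiv.Perm (Fin n) → Fin (2 * n) → Fin M := fun π i => finProdFinEquiv (eK π, i)
  have hpos : ∀ π i j, i < j → pos π i < pos π j := by
    intro π i j hij
    simp only [pos, Fin.lt_def, finProdFinEquiv_apply_val]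
    have : (i : ℕ) < j := hij
    omega
  have hposinj : ∀ π π' i i', pos π i = pos π' i' → π = π' ∧ i = i' := by
    intro π π' i i' h
    have h1 := finProdFinEquiv.injective h
    rw [Prod.mk.injEq] at h1
    exact ⟨eK.injective h1.1, h1.2⟩
  -- the subset representing element `j`
  let lo : Fin n → Fin (2 * n) := fun i => ⟨i, by omega⟩
  let hi : Fin n → Fin (2 * n) := fun i => ⟨n + i, by omega⟩
  let Y : Fin n → Finset (Fin M) := fun j => Finset.univ.filter (fun x => ∃ π : Equiv.Perm (Fin n),
    (∃ i, g.Adj i (π j) ∧ x = pos π (lo i)) ∨ x = pos π (hi (π j)))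
  have hYhi : ∀ (π : Equiv.Perm (Fin n)) (j k : Fin n), pos π (hi k) ∈ Y j ↔ k = π j := by
    intro π j k
    simp only [Y, Finset.mem_filter, Finset.mem_univ, true_and]
    constructor
    · rintro ⟨π', ⟨i, _, h⟩ | h⟩
      · obtain ⟨_, h2⟩ := hposinj _ _ _ _ h
        have h3 := congrArg Fin.val h2
        simp only [lo, hi] at h3
        have := i.isLt
        omega
      · obtain ⟨h1, h2⟩ := hposinj _ _ _ _ h
        have h3 := congrArg Fin.val h2
        simp only [hi] at h3
        rw [h1]
        exact Fin.ext (by omega)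
    · rintro rfl
      exact ⟨π, Or.inr rfl⟩
  have hYlo : ∀ (π : Equiv.Perm (Fin n)) (i j : Fin n),
      pos π (lo i) ∈ Y j ↔ g.Adj i (π j) := by
    intro π i j
    simp only [Y, Finset.mem_filter, Finset.mem_univ, true_and]
    constructor
    · rintro ⟨π', ⟨i', h', h⟩ | h⟩
      · obtain ⟨h1, h2⟩ := hposinj _ _ _ _ h
        have h3 := congrArg Fin.val h2
        simp only [lo] at h3
        have h4 : i = i' := Fin.ext h3
        rw [h1, h4]
        exact h'
      · obtain ⟨_, h2⟩ := hposinj _ _ _ _ h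
        have h3 := congrArg Fin.val h2
        simp only [lo, hi] at h3
        have := i.isLt
        omega
    · intro h
      exact ⟨π, Or.inl ⟨i, h, rfl⟩⟩
  -- sort the subsets
  have hinj2 : Function.Injective (fun j => p (some (Sum.inr (β (Y j))))) := by
    intro j k hjk
    have h1 : β (Y j) = β (Y k) := Sum.inr_injective (hinj hjk)
    have h2 : pos 1 (hi j) ∈ Y j := (hYhi 1 j j).mpr rfl
    rw [← hβ, h1, hβ, hYhi] at h2
    exact h2
  obtain ⟨κ, hκ⟩ := exists_sort _ hinj2
  let π : Equiv.Perm (Fin n) := κ⁻¹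
  have hπ : ∀ i, π (κ i) = i := fun i => by simp [π]
  let ψ : Fin n → Option (Fin (2 * M) ⊕ Finset (Fin (2 * M))) := fun i =>
    if (i : ℕ) < s then some (Sum.inl (d (pos π (lo i)))) else some (Sum.inr (β (Y (κ i))))
  have hψl : ∀ i : Fin n, (i : ℕ) < s → ψ i = some (Sum.inl (d (pos π (lo i)))) :=
    fun i h => if_pos h
  have hψr : ∀ i : Fin n, ¬ (i : ℕ) < s → ψ i = some (Sum.inr (β (Y (κ i)))) :=
    fun i h => if_neg h
  have hne : ∀ i, ψ i ≠ none := by
    intro i
    by_cases h : (i : ℕ) < s
    · rw [hψl i h]; simp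
    · rw [hψr i h]; simp
  have hll : ∀ i j : Fin n, (i : ℕ) < s → (j : ℕ) < s → i < j → p (ψ i) < p (ψ j) := by
    intro i j hi' hj' hij
    rw [hψl i hi', hψl j hj']
    exact hd _ _ (hpos _ _ _ hij)
  have hrr : ∀ i j : Fin n, ¬ (i : ℕ) < s → ¬ (j : ℕ) < s → i < j → p (ψ i) < p (ψ j) := by
    intro i j hi' hj' hij
    rw [hψr i hi', hψr j hj']
    exact hκ hij
  have hlr : (∀ i j : Fin n, (i : ℕ) < s → ¬ (j : ℕ) < s → p (ψ i) < p (ψ j)) ∨
      (∀ i j : Fin n, (i : ℕ) < s → ¬ (j : ℕ) < s → p (ψ j) < p (ψ i)) := by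
    rcases hside with h | h
    · left
      intro i j hi' hj'
      rw [hψl i hi', hψr j hj']
      exact h _ _
    · right
      intro i j hi' hj'
      rw [hψl i hi', hψr j hj']
      exact h _ _
  have hcyc : ∀ i j k, i < j → j < k → c.sbtw (ψ i) (ψ j) (ψ k) := by
    intro i j k hij hjk
    apply hp2 _ _ _ (hne i) (hne j) (hne k)
    have hij' : (i : ℕ) < j := hij
    have hjk' : (j : ℕ) < k := hjk
    by_cases h1 : (i : ℕ) < s
    · by_cases h2 : (j : ℕ) < s
      · by_cases h3 : (k : ℕ) < s
        · exact Or.inl ⟨hll i j h1 h2 hij, hll j k h2 h3 hjk⟩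
        · rcases hlr with h | h
          · exact Or.inl ⟨hll i j h1 h2 hij, h j k h2 h3⟩
          · exact Or.inr (Or.inr ⟨h i k h1 h3, hll i j h1 h2 hij⟩)
      · have h3 : ¬ (k : ℕ) < s := by omega
        rcases hlr with h | h
        · exact Or.inl ⟨h i j h1 h2, hrr j k h2 h3 hjk⟩
        · exact Or.inr (Or.inl ⟨hrr j k h2 h3 hjk, h i k h1 h3⟩)
    · have h2 : ¬ (j : ℕ) < s := by omega
      have h3 : ¬ (k : ℕ) < s := by omega
      exact Or.inl ⟨hrr i j h1 h2 hij, hrr j k h2 h3 hjk⟩
  have hpne : ∀ i j : Fin n, i < j → ψ i ≠ ψ j := by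
    intro i j hij hcon
    have hij' : (i : ℕ) < j := hij
    by_cases h1 : (i : ℕ) < s
    · by_cases h2 : (j : ℕ) < s
      · have := hll i j h1 h2 hij
        rw [hcon] at this
        exact lt_irrefl _ this
      · rcases hlr with h | h
        · have := h i j h1 h2
          rw [hcon] at this
          exact lt_irrefl _ this
        · have := h i j h1 h2
          rw [hcon] at this
          exact lt_irrefl _ this
    · have := hrr i j h1 (by omega) hij
      rw [hcon] at this
      exact lt_irrefl _ this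
  refine ⟨ψ, hcyc, ?_, ?_⟩
  · intro i j hij
    rcases lt_trichotomy i j with h | h | h
    · exact absurd hij (hpne i j h)
    · exact h
    · exact absurd hij.symm (hpne j i h)
  · have hmain : ∀ i j : Fin n, (i : ℕ) < s → ¬ (j : ℕ) < s →
        (g.Adj i j ↔ (univGraph (2 * M)).Adj (ψ i) (ψ j)) := by
      intro i j h1 h2
      rw [hψl i h1, hψr j h2]
      change _ ↔ d (pos π (lo i)) ∈ β (Y (κ j))
      rw [hβ, hYlo, hπ]
    intro i j
    by_cases h1 : (i : ℕ) < s
    · by_cases h2 : (j : ℕ) < s
      · constructor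
        · intro h
          exact absurd h2 ((hg i j h).mp h1)
        · intro h
          rw [hψl i h1, hψl j h2] at h
          exact absurd h not_false
      · exact hmain i j h1 h2
    · by_cases h2 : (j : ℕ) < s
      · rw [g.adj_comm, (univGraph (2 * M)).adj_comm]
        exact hmain j i h2 h1
      · constructor
        · intro h
          exact absurd ((hg i j h).mpr h2) h1
        · intro h
          rw [hψr i h1, hψr j h2] at h
          exact absurd h not_false

/-! ### The odd cycle -/

/-- The cycle of length `2 q + 1` in which every vertex is joined to the two opposite vertices. -/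
def oddGraph (q : ℕ) : SimpleGraph (Fin (2 * q + 1)) where
  Adj i j := i ≠ j ∧ ((i : ℕ) + q = j ∨ (i : ℕ) + q + 1 = j ∨ (j : ℕ) + q = i ∨
    (j : ℕ) + q + 1 = i)
  symm := ⟨by
    intro i j h
    exact ⟨h.1.symm, by tauto⟩⟩
  loopless := ⟨fun i h => h.1 rfl⟩

lemma oddGraph_not_colorable {q : ℕ} (hq : 0 < q) : ¬ (oddGraph q).Colorable 2 := by
  rintro ⟨C⟩
  have key : ∀ k : ℕ, ∀ hk : k ≤ q, C ⟨k, by omega⟩ = C ⟨0, by omega⟩ := by
    intro k
    induction k with
    | zero => intro _; rfl
    | succ k ih =>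
      intro hk
      rw [← ih (by omega)]
      have h1 : C ⟨k, by omega⟩ ≠ C ⟨k + 1 + q, by omega⟩ :=
        C.valid ⟨by simp only [ne_eq, Fin.mk.injEq]; omega, Or.inr (Or.inl (by simp only; omega))⟩
      have h2 : C ⟨k + 1, by omega⟩ ≠ C ⟨k + 1 + q, by omega⟩ :=
        C.valid ⟨by simp only [ne_eq, Fin.mk.injEq]; omega, Or.inl (by simp only)⟩
      generalize C ⟨k, by omega⟩ = x at *
      generalize C ⟨k + 1, by omega⟩ = y at *
      generalize C ⟨k + 1 + q, by omega⟩ = z at *
      revert x y z
      decide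
  have h1 := key q le_rfl
  have h2 : C ⟨0, by omega⟩ ≠ C ⟨q, by omega⟩ :=
    C.valid ⟨by simp only [ne_eq, Fin.mk.injEq]; omega, Or.inl (by simp only; omega)⟩
  exact h2 h1.symm

/-- Position on the circle, relative to the missing vertex `v`. -/
def rel (q v x : ℕ) : ℕ := if v < x then x - v else x + (2 * q + 1) - v

lemma rel_cyc {q v x y z : ℕ} (hv : v < 2 * q + 1) (hx : x < 2 * q + 1) (hy : y < 2 * q + 1)
    (hz : z < 2 * q + 1) (_ : x ≠ v) (_ : y ≠ v) (_ : z ≠ v) :
    cyc (rel q v x) (rel q v y) (rel q v z) ↔ cyc x y z := by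
  unfold cyc rel
  split_ifs <;> omega

lemma cyc_or {x y z : ℕ} (hxy : x ≠ y) (hyz : y ≠ z) (hxz : x ≠ z) : cyc x y z ∨ cyc z y x := by
  unfold cyc
  omega

lemma cyc_ne {x y z : ℕ} (h : cyc x y z) : x ≠ y ∧ y ≠ z ∧ x ≠ z := by
  unfold cyc at h
  omega

lemma cyc_mono {n : ℕ} {f : Fin n → ℕ} (hf : StrictMono f) (i j k : Fin n) :
    cyc (f i) (f j) (f k) ↔ cyc i j k := by
  unfold cyc
  rw [hf.lt_iff_lt, hf.lt_iff_lt, hf.lt_iff_lt, Fin.lt_def, Fin.lt_def, Fin.lt_def]

lemma not_circular : ¬ DescribedCircularly Bip := by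
  classical
  rintro ⟨F, hF, hdesc⟩
  obtain ⟨m, hm⟩ : ∃ m, ∀ P ∈ F, P.n ≤ m := by
    obtain ⟨m, hm⟩ := (hF.image CircularlyOrderedGraph.n).bddAbove
    exact ⟨m, fun P hP => hm ⟨P, hP, rfl⟩⟩
  set q : ℕ := m + 1 with hqdef
  have h1 := mt (hdesc (Fin (2 * q + 1)) (oddGraph q)).mpr
    (oddGraph_not_colorable (by omega))
  push Not at h1
  obtain ⟨P, hPF, φ, hφ, hφc, hφa⟩ := h1 (LinearOrder.toCircularOrder (Fin (2 * q + 1)))
  have hPn := hm P hPF
  -- the missing vertex
  obtain ⟨v, hv⟩ : ∃ v, ∀ i, φ i ≠ v := by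
    by_contra hcon
    push Not at hcon
    have := Fintype.card_le_of_surjective φ hcon
    simp only [Fintype.card_fin] at this
    omega
  have hvn : ∀ i, ((φ i : Fin (2 * q + 1)) : ℕ) ≠ v := fun i h => hv i (Fin.ext h)
  let ρ : Fin P.n → ℕ := fun i => rel q v (φ i)
  have hρinj : Function.Injective ρ := by
    intro i j hij
    apply hφ
    apply Fin.ext
    have h1 := (φ i).isLt
    have h2 := (φ j).isLt
    have h3 := v.isLt
    have h4 := hvn i
    have h5 := hvn j
    simp only [ρ, rel] at hij
    split_ifs at hij <;> omega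
  have hρc : ∀ i j k, P.order.sbtw i j k ↔ cyc (ρ i) (ρ j) (ρ k) := by
    intro i j k
    rw [hφc, rel_cyc v.isLt (φ i).isLt (φ j).isLt (φ k).isLt (hvn i) (hvn j) (hvn k)]
    exact Iff.rfl
  have hρa : ∀ i j, P.graph.Adj i j → (ρ i ≤ q ↔ ¬ ρ j ≤ q) := by
    intro i j h
    rw [hφa] at h
    obtain ⟨_, h⟩ := h
    have h1 := (φ i).isLt
    have h2 := (φ j).isLt
    have h3 := v.isLt
    have h4 := hvn i
    have h5 := hvn j
    simp only [ρ, rel]
    split_ifs <;> omega
  obtain ⟨σ, hσ⟩ := exists_sort ρ hρinj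
  set s : ℕ := (Finset.univ.filter (fun i => (ρ ∘ σ) i ≤ q)).card with hs
  have hsiff : ∀ i : Fin P.n, (i : ℕ) < s ↔ ρ (σ i) ≤ q := fun i =>
    Tuple.lt_card_le_iff_apply_le_of_monotone (f := ρ ∘ σ) (a := q) hσ.monotone
  obtain ⟨N, hN⟩ := unavoidable (P.graph.comap σ) s (by
    intro i j h
    rw [hsiff, hsiff]
    exact hρa _ _ h)
  obtain ⟨c, hc⟩ := (hdesc _ (univGraph N)).mp (univGraph_colorable N)
  obtain ⟨ψ, hψ1, hψ2, hψ3⟩ := hN c
  have fwd : ∀ i j k : Fin P.n, cyc i j k → c.sbtw (ψ i) (ψ j) (ψ k) := by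
    intro i j k h
    letI := c
    rcases h with ⟨h1, h2⟩ | ⟨h1, h2⟩ | ⟨h1, h2⟩
    · exact hψ1 i j k h1 h2
    · exact sbtw_cyclic_right (hψ1 j k i h1 h2)
    · exact sbtw_cyclic_left (hψ1 k i j h1 h2)
  have bwd : ∀ i j k : Fin P.n, c.sbtw (ψ i) (ψ j) (ψ k) → cyc i j k := by
    intro i j k h
    letI := c
    have n1 : (i : ℕ) ≠ j := by
      intro h'
      rw [Fin.ext h'] at h
      exact sbtw_irrefl_left h
    have n2 : (j : ℕ) ≠ k := by
      intro h'
      rw [Fin.ext h'] at h
      exact sbtw_irrefl_right h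
    have n3 : (i : ℕ) ≠ k := by
      intro h'
      rw [Fin.ext h'] at h
      exact sbtw_irrefl_left_right h
    rcases cyc_or n1 n2 n3 with h' | h'
    · exact h'
    · exact absurd h (sbtw_asymm (fwd k j i h'))
  apply hc P hPF
  refine ⟨ψ ∘ σ.symm, hψ2.comp σ.symm.injective, ?_, ?_⟩
  · intro i j k
    rw [hρc]
    have e1 := cyc_mono hσ (σ.symm i) (σ.symm j) (σ.symm k)
    simp only [Function.comp_apply, Equiv.apply_symm_apply] at e1
    rw [e1]
    exact ⟨fwd _ _ _, bwd _ _ _⟩
  · intro i j
    rw [Function.comp_apply, Function.comp_apply, ← hψ3]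
    simp only [SimpleGraph.comap_adj, Equiv.apply_symm_apply]

/-- **Theorem.** The class of bipartite graphs is a hereditary graph property which is described by
finitely many forbidden linearly ordered graphs, but by no finite set of forbidden circularly
ordered graphs. -/
theorem result : Hereditary Bip ∧ DescribedLinearly Bip ∧ ¬ DescribedCircularly Bip := by
  refine ⟨?_, linear, not_circular⟩
  rintro V W _ _ G H ⟨e⟩ hG
  exact hG.of_hom e.toHom

end Pool.Agent.Results.MP_b6cdd3_co.BipartiteNotCircular
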